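import Pool.Agent.R352.T.Mom

/-!
# Families of values at positive rational points
-/

set_option autoImplicit false

open Filter Topology Set MeasureTheory

namespace Pool.Agent.R352.T

open Pool.Agent.R352.E (clF subset_clF clF_mono clF_le of_pow indep_of_span exp_rat_mem rat_mem card_le trdeg_ge count_gen)

/-- a common denominator of finitely many nonnegative rational numbers -/
lemma common_den {ι : Type*} [Fintype ι] (r : ι → ℚ) (hr : ∀ i, 0 ≤ r i) (q : ℕ) (hq : ∀ i, (r i).den ∣ q) (hq1 : 1 ≤ q) :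
    ∀ i, ∃ m : ℕ, (m : ℝ) / q = r i := by
  intro i
  obtain ⟨c, hc⟩ := hq i
  have hnum : 0 ≤ (r i).num := Rat.num_nonneg.2 (hr i)
  have hc0 : c ≠ 0 := by
    rintro rfl
    rw [mul_zero] at hc
    omega
  refine ⟨(r i).num.toNat * c, ?_⟩
  have h2 : (((r i).num.toNat : ℕ) : ℝ) = ((r i).num : ℝ) := by
    have : (((r i).num.toNat : ℕ) : ℤ) = (r i).num := Int.toNat_of_nonneg hnum
    exact_mod_cast this
  have h3 : ((r i : ℚ) : ℝ) = ((r i).num : ℝ) / ((r i).den : ℝ) := by
    exact_mod_cast (Rat.num_div_den (r i)).symm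
  rw [hc, h3]
  push_cast
  rw [h2]
  have : ((r i).den : ℝ) ≠ 0 := by exact_mod_cast (r i).den_ne_zero
  have : (c : ℝ) ≠ 0 := by exact_mod_cast hc0
  field_simp

lemma EA_alg_fin (J : ℕ) {k : ℕ} (a x : Fin k → ℚ) (hinj : ∀ i i', a i = a i' → x i = x i' → i = i')
    (ha0 : ∀ i, 0 ≤ a i) (ha1 : ∀ i, a i < 1) (hpos : ∀ i, 0 < x i) :
    AlgebraicIndependent ℚ (fun o : Option (Fin J × Fin k) =>
      o.elim (Real.exp 1) (fun p => EA (a p.2) (p.1 + 1) (x p.2))) := by
  set q : ℕ := (∏ i, (x i).den) * ∏ i, (a i).den with hqd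
  have hq : 1 ≤ q := Nat.one_le_iff_ne_zero.2 (Nat.mul_ne_zero
    (Finset.prod_ne_zero_iff.2 fun i _ => (x i).den_ne_zero) (Finset.prod_ne_zero_iff.2 fun i _ => (a i).den_ne_zero))
  have hq' : (q : ℝ) ≠ 0 := by positivity
  have hqp : (0 : ℝ) < q := by positivity
  have h1 := common_den x (fun i => (hpos i).le) q
    (fun i => (Finset.dvd_prod_of_mem (fun i => (x i).den) (Finset.mem_univ i)).trans (dvd_mul_right _ _)) hq
  have h2 := common_den a ha0 q
    (fun i => (Finset.dvd_prod_of_mem (fun i => (a i).den) (Finset.mem_univ i)).trans (dvd_mul_left _ _)) hq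
  choose mm hmm using h1
  choose cc hcc using h2
  have hinj' : ∀ i i', mm i = mm i' → cc i = cc i' → i = i' := by
    intro i j hij hij'
    apply hinj
    · have h1 := hcc i
      rw [hij', hcc j] at h1
      exact_mod_cast h1.symm
    · have h1 := hmm i
      rw [hij, hmm j] at h1
      exact_mod_cast h1.symm
  have hpos' : ∀ i, 1 ≤ mm i := by
    intro i
    by_contra h
    have h0 : mm i = 0 := by omega
    have h1 := hmm i
    rw [h0, Nat.cast_zero, zero_div] at h1
    have : (0 : ℝ) < x i := by exact_mod_cast hpos i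
    linarith
  have hcq : ∀ i, cc i < q := by
    intro i
    have h1 := hcc i
    have h3 : ((a i : ℚ) : ℝ) < 1 := by exact_mod_cast ha1 i
    rw [← h1, div_lt_one hqp] at h3
    exact_mod_cast h3
  have h := EA_alg J k mm cc hinj' hpos' hq hcq
  refine indep_of_span h (fun o => ?_) le_rfl
  cases o with
  | none =>
    simp only [Option.elim]
    refine of_pow (n := q) (by omega) ?_
    rw [← Real.exp_nat_mul]
    have h1 : (q : ℝ) * (-1 / q) = -1 := by field_simp
    rw [h1, Real.exp_neg]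
    refine (clF _).inv_mem (subset_clF _ ⟨none, rfl⟩)
  | some p =>
    simp only [Option.elim]
    rw [hmm p.2, hcc p.2]
    exact subset_clF _ ⟨some p, rfl⟩

/-- the index set: `(l, a, x)` -/
abbrev PI : Type := {p : ℕ × ℚ × ℚ // 0 ≤ p.2.1 ∧ p.2.1 < 1 ∧ 0 < p.2.2}

/-- **Algebraic independence** of `e` and the numbers `E_{a,l+1}(x)`, `0 ≤ a < 1` rational, `x` positive rational -/
theorem EA_alg_Q : AlgebraicIndependent ℚ (fun o : Option PI =>
    o.elim (Real.exp 1) (fun p => EA p.1.2.1 (p.1.1 + 1) p.1.2.2)) := by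
  classical
  refine algebraicIndependent_of_finite_type fun t ht => ?_
  let s : Finset (ℕ × ℚ × ℚ) := ht.toFinset.biUnion fun o => o.elim ∅ (fun p => {p.1})
  have hs : ∀ p : PI, some p ∈ t → p.1 ∈ s := by
    intro p hp
    refine Finset.mem_biUnion.2 ⟨some p, ht.mem_toFinset.2 hp, ?_⟩
    simp
  let J : ℕ := s.sup Prod.fst + 1
  let Y : Finset (ℚ × ℚ) := (s.image Prod.snd).filter (fun y => 0 ≤ y.1 ∧ y.1 < 1 ∧ 0 < y.2)
  have hJ : ∀ p : PI, some p ∈ t → p.1.1 < J := fun p hp =>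
    Nat.lt_succ_of_le (Finset.le_sup (f := Prod.fst) (hs p hp))
  have hY : ∀ p : PI, some p ∈ t → p.1.2 ∈ Y := fun p hp =>
    Finset.mem_filter.2 ⟨Finset.mem_image_of_mem _ (hs p hp), p.2⟩
  have hYm : ∀ y : Y, 0 ≤ (y : ℚ × ℚ).1 ∧ (y : ℚ × ℚ).1 < 1 ∧ 0 < (y : ℚ × ℚ).2 := fun y => (Finset.mem_filter.1 y.2).2
  let e := Fintype.equivFin Y
  have h := EA_alg_fin J (k := Fintype.card Y) (fun i => (e.symm i : ℚ × ℚ).1) (fun i => (e.symm i : ℚ × ℚ).2) (by
    intro i j h1 h2
    exact e.symm.injective (Subtype.ext (Prod.ext h1 h2))) (fun i => (hYm _).1) (fun i => (hYm _).2.1) (fun i => (hYm _).2.2)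
  let f : t → Option (Fin J × Fin (Fintype.card Y)) := fun o =>
    match o with
    | ⟨none, _⟩ => none
    | ⟨some p, hp⟩ => some (⟨p.1.1, hJ p hp⟩, e ⟨p.1.2, hY p hp⟩)
  have hf : Function.Injective f := by
    rintro ⟨o, ho⟩ ⟨o', ho'⟩ hoo
    cases o with
    | none =>
      cases o' with
      | none => rfl
      | some p' => exact absurd hoo (by simp [f])
    | some p =>
      cases o' with
      | none => exact absurd hoo (by simp [f])
      | some p' =>
        simp only [f, Option.some.injEq, Prod.mk.injEq, Fin.mk.injEq] at hoo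
        have h1 := e.injective hoo.2
        simp only [Subtype.mk.injEq] at h1
        have : p = p' := Subtype.ext (Prod.ext hoo.1 h1)
        subst this
        rfl
  have h2 := h.comp f hf
  convert h2 using 1
  ext ⟨o, ho⟩
  cases o with
  | none => rfl
  | some p => simp [f]

/-- rational powers of positive rational numbers are algebraic -/
lemma rpow_mem {T : Set ℝ} {x : ℚ} (hx : 0 < x) (a : ℚ) : (x : ℝ) ^ (a : ℝ) ∈ clF T := by
  have hx' : (0 : ℝ) < x := by exact_mod_cast hx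
  refine of_pow (n := a.den) a.den_ne_zero ?_
  rw [← Real.rpow_natCast, ← Real.rpow_mul hx'.le]
  have h1 : (a : ℝ) * ((a.den : ℕ) : ℝ) = ((a.num : ℤ) : ℝ) := by
    have := Rat.mul_den_eq_num a
    exact_mod_cast this
  rw [h1, Real.rpow_intCast]
  exact (clF T).zpow_mem (rat_mem T x) _

/-- membership of `E_{a,n+1}(x)` -/
lemma EA_mem {a x : ℚ} (ha : 0 < a) (hx : 0 < x) {T : Set ℝ} (he : Real.exp 1 ∈ clF T) (n : ℕ)
    (hN : NA a n x ∈ clF T) (hg : ga a n x ∈ clF T) : EA a (n + 1) x ∈ clF T := by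
  have hx' : (0 : ℝ) < x := by exact_mod_cast hx
  have ha' : (0 : ℝ) < a := by exact_mod_cast ha
  have h := EA_rel ha' n hx'
  have hxa : (0 : ℝ) < (x : ℝ) ^ (a : ℝ) := Real.rpow_pos_of_pos hx' _
  have hn : ((n.factorial : ℕ) : ℝ) ≠ 0 := by positivity
  have h1 : EA a (n + 1) x = 1 / (a : ℝ) ^ (n + 1) - (NA a n x - (-1) ^ n * (Real.exp (-(x : ℝ)) * (x : ℝ) ^ ((a : ℝ) - 1) * ga a n x)) /
      (n.factorial * (x : ℝ) ^ (a : ℝ)) := by
    rw [← h]
    field_simp
    ring
  rw [h1]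
  have hexp : Real.exp (-(x : ℝ)) ∈ clF T := by
    have := exp_rat_mem he (-x)
    push_cast at this
    exact this
  have hpow : (x : ℝ) ^ ((a : ℝ) - 1) ∈ clF T := by
    have := rpow_mem (T := T) hx (a - 1)
    push_cast at this
    exact this
  refine (clF T).sub_mem ((clF T).div_mem (clF T).one_mem ((clF T).pow_mem (rat_mem T a) _)) ((clF T).div_mem
    ((clF T).sub_mem hN ((clF T).mul_mem ((clF T).pow_mem ((clF T).neg_mem (clF T).one_mem) _)
      ((clF T).mul_mem ((clF T).mul_mem hexp hpow) hg))) ((clF T).mul_mem (natCast_mem _ _) (rpow_mem hx a)))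

lemma NA_zero {a : ℝ} (ha : 0 < a) (x : ℝ) : NA a 0 x = Real.Gamma a := by
  rw [NA]
  simp [ma_zero ha]

end Pool.Agent.R352.T
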