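import Pool.Agent.R352.T.Count

/-!
# The moments at `1/2`
-/

set_option autoImplicit false

open Filter Topology Set MeasureTheory Complex

namespace Pool.Agent.R352.T

open Pool.Agent.R352.E (fr fl psi pd pdx pd_deriv mellin_rec Gamma_deriv zt PE dPE clF subset_clF clF_mono clF_le
  of_pow rat_mem)

/-- the values of the derivatives of the digamma function at `1/2` -/
noncomputable def ch : ℕ → ℝ
  | 0 => -(Real.eulerMascheroniConstant + 2 * Real.log 2)
  | (i + 1) => (-1) ^ i * (i + 1).factorial * ((2 ^ (i + 2) - 1) * zt (i + 2))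

lemma half_re : (0 : ℝ) < (1 / 2 : ℂ).re := by norm_num

lemma psi_half : psi (1 / 2) = ((ch 0 : ℝ) : ℂ) := by
  have h1 := (Gamma_deriv half_re).unique hasDerivAt_Gamma_one_half
  have aux : (Real.pi : ℂ) ^ (1 / 2 : ℂ) = ((√Real.pi : ℝ) : ℂ) := by
    rw [Real.sqrt_eq_rpow, ofReal_cpow Real.pi_pos.le, ofReal_div, ofReal_one, ofReal_ofNat]
  have aux2 : ((√Real.pi : ℝ) : ℂ) ≠ 0 := by
    rw [ofReal_ne_zero]
    exact (Real.sqrt_pos.2 Real.pi_pos).ne'
  rw [Gamma_one_half_eq, aux] at h1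
  have h2 : psi (1 / 2) = -(Real.eulerMascheroniConstant + 2 * log 2) := by
    refine mul_left_cancel₀ aux2 ?_
    rw [h1]
    ring
  rw [h2, ch]
  push_cast
  rw [ofReal_log zero_le_two]
  push_cast
  rfl

lemma summ_one (k : ℕ) (hk : 2 ≤ k) : Summable (fun n : ℕ => 1 / ((n : ℝ) + 1) ^ k) := by
  have := (summable_nat_add_iff 1).2 (Real.summable_one_div_nat_pow.2 (show 1 < k by omega))
  refine this.congr fun n => ?_
  push_cast
  rfl

lemma summ_half (k : ℕ) (hk : 2 ≤ k) : Summable (fun n : ℕ => 1 / ((n : ℝ) + 1 / 2) ^ k) := by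
  have h := (summ_one k hk).comp_injective (i := fun n : ℕ => 2 * n) (fun a b h => by
    have : 2 * a = 2 * b := h
    omega)
  refine (h.mul_left (2 ^ k)).congr fun n => ?_
  simp only [Function.comp_apply]
  have : (((2 * n : ℕ) : ℝ) + 1) = 2 * ((n : ℝ) + 1 / 2) := by push_cast; ring
  rw [this, mul_pow]
  field_simp

lemma zt_odd (k : ℕ) (hk : 2 ≤ k) : ∑' n : ℕ, 1 / ((n : ℝ) + 1 / 2) ^ k = (2 ^ k - 1) * zt k := by
  let f : ℕ → ℝ := fun n => 1 / ((n : ℝ) + 1) ^ k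
  have h2 : Summable f := summ_one k hk
  have he : Summable (fun n : ℕ => f (2 * n)) := h2.comp_injective (i := fun n : ℕ => 2 * n) (fun a b h => by
    have : 2 * a = 2 * b := h
    omega)
  have ho : Summable (fun n : ℕ => f (2 * n + 1)) := h2.comp_injective (i := fun n : ℕ => 2 * n + 1) (fun a b h => by
    have : 2 * a + 1 = 2 * b + 1 := h
    omega)
  have h3 : ∑' n : ℕ, f (2 * n) + ∑' n : ℕ, f (2 * n + 1) = zt k := tsum_even_add_odd he ho
  have h4 : ∑' n : ℕ, f (2 * n + 1) = 1 / 2 ^ k * zt k := by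
    have e : zt k = ∑' n : ℕ, f n := rfl
    rw [e, ← tsum_mul_left]
    refine tsum_congr fun n => ?_
    have : (((2 * n + 1 : ℕ) : ℝ) + 1) = 2 * ((n : ℝ) + 1) := by push_cast; ring
    simp only [f]
    rw [this, mul_pow]
    field_simp
  have h5 : ∑' n : ℕ, f (2 * n) = 1 / 2 ^ k * ∑' n : ℕ, 1 / ((n : ℝ) + 1 / 2) ^ k := by
    rw [← tsum_mul_left]
    refine tsum_congr fun n => ?_
    have : (((2 * n : ℕ) : ℝ) + 1) = 2 * ((n : ℝ) + 1 / 2) := by push_cast; ring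
    simp only [f]
    rw [this, mul_pow]
    field_simp
  rw [h4, h5] at h3
  have h6 : (2 : ℝ) ^ k ≠ 0 := by positivity
  have h7 : 2 ^ k * (1 / 2 ^ k * ∑' n : ℕ, 1 / ((n : ℝ) + 1 / 2) ^ k + 1 / 2 ^ k * zt k) = 2 ^ k * zt k := by rw [h3]
  have h8 : (2 : ℝ) ^ k * (1 / 2 ^ k) = 1 := by field_simp
  have h9 : ∑' n : ℕ, 1 / ((n : ℝ) + 1 / 2) ^ k + zt k = 2 ^ k * zt k := by
    rw [← h7, mul_add, ← mul_assoc, ← mul_assoc, h8, one_mul, one_mul]
  linarith

lemma pdx_half (i : ℕ) : pdx i (1 / 2) = ((ch (i + 1) : ℝ) : ℂ) := by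
  have h2 : Summable (fun n : ℕ => 1 / ((n : ℝ) + 1 / 2) ^ (i + 2)) := summ_half (i + 2) (by omega)
  have h3 : (1 : ℝ) / (1 / 2) ^ (i + 2) + ∑' n : ℕ, 1 / ((1 : ℝ) / 2 + ((n : ℝ) + 1)) ^ (i + 2) =
      (2 ^ (i + 2) - 1) * zt (i + 2) := by
    rw [← zt_odd (i + 2) (by omega), ← h2.sum_add_tsum_nat_add 1]
    simp only [Finset.sum_range_succ, Finset.sum_range_zero]
    norm_num
    refine tsum_congr fun n => ?_
    ring_nf
  rw [pdx, ch, ← h3]
  push_cast
  rfl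

lemma pd_half (i : ℕ) : pd i (1 / 2) = ((ch i : ℝ) : ℂ) := by
  cases i with
  | zero => exact psi_half
  | succ i => exact pdx_half i

end Pool.Agent.R352.T
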