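import Pool.Agent.R352.T.Fam
import Pool.Agent.R352.E.Cnt

/-!
# Counting algebraic numbers
-/

set_option autoImplicit false

open Set

namespace Pool.Agent.R352.T

open Pool.Agent.R352.E (clF subset_clF clF_mono clF_le of_pow indep_of_span exp_rat_mem rat_mem card_le trdeg_ge count_gen
  encard_le_of_finset)

section

variable {P : Type*} {Z R : P → ℝ}

lemma AI_finset (hAI : AlgebraicIndependent ℚ (fun o : Option P => o.elim (Real.exp 1) Z)) (S : Finset P) :
    AlgebraicIndependent ℚ (fun o : Option S => o.elim (Real.exp 1) (fun p => Z p)) := by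
  let f : Option S → Option P := Option.map Subtype.val
  have hf : Function.Injective f := Option.map_injective Subtype.val_injective
  have h2 := hAI.comp f hf
  convert h2 using 1
  ext o
  cases o <;> simp [f]

theorem count_generic (hAI : AlgebraicIndependent ℚ (fun o : Option P => o.elim (Real.exp 1) Z)) {r : ℕ} (y : Fin r → ℝ)
    (hZ : ∀ p, ∀ T : Set ℝ, {Real.exp 1} ∪ range y ⊆ clF T → R p ∈ clF T → Z p ∈ clF T) :
    {i : Fin r ⊕ P | Sum.elim y R i ∈ clF {Real.exp 1}}.encard ≤ (r : ℕ∞) := by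
  classical
  refine encard_le_of_finset _ _ fun t ht => ?_
  let S : Finset P := t.biUnion fun i => Sum.elim (fun _ => ∅) (fun p => {p}) i
  have hSm : ∀ p : P, Sum.inr p ∈ t → p ∈ S := fun p hp => Finset.mem_biUnion.2 ⟨_, hp, by simp⟩
  have hAI' := AI_finset hAI S
  let emb : Fin r ⊕ S → Fin r ⊕ P := Sum.map id Subtype.val
  have hemb : Function.Injective emb := Function.Injective.sumMap Function.injective_id Subtype.val_injective
  let S' : Finset (Fin r ⊕ S) := t.preimage emb hemb.injOn
  have hS'card : S'.card = t.card := by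
    rw [Finset.card_preimage, Finset.filter_true_of_mem]
    intro i hi
    rcases i with i | p
    · exact ⟨Sum.inl i, rfl⟩
    · exact ⟨Sum.inr ⟨p, hSm p hi⟩, rfl⟩
  have key := count_gen hAI' (y := fun k => Sum.elim y R (emb k)) (a := Real.exp 1) S'
    (fun k hk => ht (Finset.mem_preimage.1 hk)) ?_
  · simp only [Fintype.card_option, Fintype.card_fin, Fintype.card_coe, Fintype.card_sum, hS'card] at key
    omega
  · intro o
    have hsub : {Real.exp 1} ∪ range y ⊆ clF ({Real.exp 1} ∪ range fun k => Sum.elim y R (emb k)) := by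
      rintro z (hz | ⟨i, rfl⟩)
      · exact subset_clF _ (Or.inl hz)
      · exact subset_clF _ (Or.inr ⟨Sum.inl i, rfl⟩)
    cases o with
    | none => exact hsub (Or.inl rfl)
    | some p => exact hZ p _ hsub (subset_clF _ (Or.inr ⟨Sum.inr p, rfl⟩))

theorem trdeg_generic (hAI : AlgebraicIndependent ℚ (fun o : Option P => o.elim (Real.exp 1) Z)) {r : ℕ} (y : Fin r → ℝ)
    (hZ : ∀ p, ∀ T : Set ℝ, {Real.exp 1} ∪ range y ⊆ clF T → R p ∈ clF T → Z p ∈ clF T) (S : Finset P) :
    ((S.card + 1 : ℕ) : Cardinal) ≤ Algebra.trdeg ℚ (IntermediateField.adjoin ℚ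
      ({Real.exp 1} ∪ range y ∪ R '' (S : Set P))) := by
  have h2 := trdeg_ge (AI_finset hAI S) (A := {Real.exp 1} ∪ range y ∪ R '' (S : Set P)) ?_
  · refine le_trans (le_of_eq ?_) h2
    simp
  · intro o
    have hsub : {Real.exp 1} ∪ range y ⊆ clF ({Real.exp 1} ∪ range y ∪ R '' (S : Set P)) :=
      subset_union_left.trans (subset_clF _)
    cases o with
    | none => exact hsub (Or.inl rfl)
    | some p => exact hZ p _ hsub (subset_clF _ (Or.inr ⟨p, p.2, rfl⟩))

theorem AI_generic (hAI : AlgebraicIndependent ℚ (fun o : Option P => o.elim (Real.exp 1) Z))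
    (hZ : ∀ p, ∀ T : Set ℝ, Real.exp 1 ∈ clF T → R p ∈ clF T → Z p ∈ clF T) :
    AlgebraicIndependent ℚ (fun o : Option P => o.elim (Real.exp 1) R) := by
  classical
  refine algebraicIndependent_of_finite_type fun t ht => ?_
  let F : Set (Option P) := insert none t
  have hF : F.Finite := ht.insert _
  have := hF.fintype
  have key : AlgebraicIndependent ℚ (fun o : F => (o : Option P).elim (Real.exp 1) R) := by
    have hAI' : AlgebraicIndependent ℚ (fun o : F => (o : Option P).elim (Real.exp 1) Z) :=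
      hAI.comp Subtype.val Subtype.val_injective
    refine indep_of_span hAI' (fun o => ?_) le_rfl
    have he : Real.exp 1 ∈ clF (range fun o : F => (o : Option P).elim (Real.exp 1) R) :=
      subset_clF _ ⟨⟨none, Or.inl rfl⟩, rfl⟩
    obtain ⟨o, ho⟩ := o
    cases o with
    | none => exact he
    | some p => exact hZ p _ he (subset_clF _ ⟨⟨some p, ho⟩, rfl⟩)
  exact key.comp (fun o : t => (⟨o.1, Or.inr o.2⟩ : F)) (by
    intro a b hab
    have := congrArg Subtype.val hab
    exact Subtype.ext this)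

end

/-- the family of the incomplete gamma values -/
lemma AI_gam : AlgebraicIndependent ℚ (fun o : Option {p : ℚ × ℚ // 0 < p.1 ∧ p.1 < 1 ∧ 0 < p.2} =>
    o.elim (Real.exp 1) (fun p => EA p.1.1 1 p.1.2)) := by
  let f : Option {p : ℚ × ℚ // 0 < p.1 ∧ p.1 < 1 ∧ 0 < p.2} → Option PI := Option.map fun p =>
    ⟨(0, p.1), p.2.1.le, p.2.2.1, p.2.2.2⟩
  have hf : Function.Injective f := by
    refine Option.map_injective ?_
    intro p p' h
    simp only [Subtype.mk.injEq, Prod.mk.injEq, true_and] at h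
    exact Subtype.ext h
  have h2 := EA_alg_Q.comp f hf
  convert h2 using 1
  ext o
  cases o <;> simp [f]

/-- the upper incomplete gamma function -/
noncomputable def gu (a x : ℝ) : ℝ := ∫ t in Ioi x, t ^ (a - 1) * Real.exp (-t)

lemma gu_eq (a : ℝ) {x : ℝ} (hx : 0 < x) : gu a x = Real.exp (-x) * x ^ (a - 1) * ga a 0 x := by
  have h := exp_ga (a := a) 0 hx
  rw [pow_zero, one_mul] at h
  rw [h, gu]
  simp

lemma ga_mem {a x : ℚ} (hx : 0 < x) {T : Set ℝ} (he : Real.exp 1 ∈ clF T) (h : gu a x ∈ clF T) : ga a 0 x ∈ clF T := by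
  have hx' : (0 : ℝ) < x := by exact_mod_cast hx
  have hexp : Real.exp (-(x : ℝ)) ∈ clF T := by
    have := exp_rat_mem he (-x)
    push_cast at this
    exact this
  have hpow : (x : ℝ) ^ ((a : ℝ) - 1) ∈ clF T := by
    have := rpow_mem (T := T) hx (a - 1)
    push_cast at this
    exact this
  have h1 := gu_eq (a : ℝ) hx'
  have h2 : (0 : ℝ) < (x : ℝ) ^ ((a : ℝ) - 1) := Real.rpow_pos_of_pos hx' _
  have h3 : ga a 0 x = gu a x / (Real.exp (-(x : ℝ)) * (x : ℝ) ^ ((a : ℝ) - 1)) := by
    rw [h1]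
    have := Real.exp_pos (-(x : ℝ))
    field_simp
  rw [h3]
  exact (clF T).div_mem h ((clF T).mul_mem hexp hpow)

/-- membership of `E_{a,1}(x)` -/
lemma EA_one_mem {a x : ℚ} (ha : 0 < a) (hx : 0 < x) {T : Set ℝ} (he : Real.exp 1 ∈ clF T)
    (hG : Real.Gamma a ∈ clF T) (h : gu a x ∈ clF T) : EA a 1 x ∈ clF T := by
  have ha' : (0 : ℝ) < a := by exact_mod_cast ha
  exact EA_mem ha hx he 0 (by rw [NA_zero ha']; exact hG) (ga_mem hx he h)

end Pool.Agent.R352.T
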