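import Pool.Agent.R352.T.Gen

/-!
# Counting algebraic numbers, arbitrary finite index types
-/

set_option autoImplicit false

open Set

namespace Pool.Agent.R352.T

open Pool.Agent.R352.E (clF subset_clF clF_mono clF_le of_pow indep_of_span exp_rat_mem rat_mem card_le trdeg_ge count_gen
  encard_le_of_finset)

section

variable {P κ : Type*} {Z R : P → ℝ} [Fintype κ]

theorem count_fin (hAI : AlgebraicIndependent ℚ (fun o : Option P => o.elim (Real.exp 1) Z)) (y : κ → ℝ)
    (hZ : ∀ p, ∀ T : Set ℝ, {Real.exp 1} ∪ range y ⊆ clF T → R p ∈ clF T → Z p ∈ clF T) :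
    {i : κ ⊕ P | Sum.elim y R i ∈ clF {Real.exp 1}}.encard ≤ (Fintype.card κ : ℕ∞) := by
  classical
  let e := Fintype.equivFin κ
  have h := count_generic (R := R) hAI (fun i => y (e.symm i)) (fun p T hT hR => hZ p T (by
    refine subset_trans ?_ hT
    refine union_subset_union_right _ ?_
    rintro _ ⟨k, rfl⟩
    exact ⟨e k, by simp⟩) hR)
  let g : κ ⊕ P → Fin (Fintype.card κ) ⊕ P := Sum.map e id
  have hg : Function.Injective g := Function.Injective.sumMap e.injective Function.injective_id
  have hsub : g '' {i : κ ⊕ P | Sum.elim y R i ∈ clF {Real.exp 1}} ⊆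
      {i | Sum.elim (fun i => y (e.symm i)) R i ∈ clF {Real.exp 1}} := by
    rintro _ ⟨i, hi, rfl⟩
    cases i with
    | inl k =>
      have h3 : y (e.symm (e k)) ∈ clF {Real.exp 1} := by
        rw [e.symm_apply_apply]
        exact hi
      exact h3
    | inr p => exact hi
  calc {i : κ ⊕ P | Sum.elim y R i ∈ clF {Real.exp 1}}.encard = _ := (hg.encard_image _).symm
    _ ≤ _ := encard_le_encard hsub
    _ ≤ _ := h

theorem trdeg_fin (hAI : AlgebraicIndependent ℚ (fun o : Option P => o.elim (Real.exp 1) Z)) (y : κ → ℝ)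
    (hZ : ∀ p, ∀ T : Set ℝ, {Real.exp 1} ∪ range y ⊆ clF T → R p ∈ clF T → Z p ∈ clF T) (S : Finset P) :
    ((S.card + 1 : ℕ) : Cardinal) ≤ Algebra.trdeg ℚ (IntermediateField.adjoin ℚ
      ({Real.exp 1} ∪ range y ∪ R '' (S : Set P))) := by
  let e := Fintype.equivFin κ
  have h := trdeg_generic (R := R) hAI (fun i => y (e.symm i)) (fun p T hT hR => hZ p T (by
    refine subset_trans ?_ hT
    refine union_subset_union_right _ ?_
    rintro _ ⟨k, rfl⟩
    exact ⟨e k, by simp⟩) hR) S
  have h2 : range (fun i => y (e.symm i)) = range y := by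
    ext z
    constructor
    · rintro ⟨i, rfl⟩; exact ⟨_, rfl⟩
    · rintro ⟨k, rfl⟩; exact ⟨e k, by simp⟩
  rwa [h2] at h

end

/-- the family `E_{1/2, l+1}(x)` -/
lemma AI_half {P : Type*} (f : P → ℕ × ℚ) (hf : Function.Injective f) (hpos : ∀ p, 0 < (f p).2) :
    AlgebraicIndependent ℚ (fun o : Option P => o.elim (Real.exp 1) (fun p => EA (1 / 2) ((f p).1 + 1) (f p).2)) := by
  let g : Option P → Option PI := Option.map fun p => ⟨((f p).1, 1 / 2, (f p).2), by norm_num, by norm_num, hpos p⟩
  have hg : Function.Injective g := by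
    refine Option.map_injective ?_
    intro p p' h
    simp only [Subtype.mk.injEq, Prod.mk.injEq, true_and] at h
    exact hf (Prod.ext h.1 h.2)
  have h2 := EA_alg_Q.comp g hg
  convert h2 using 1
  ext o
  cases o <;> simp [g]

end Pool.Agent.R352.T
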