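import Pool.Agent.R352.T.Half

/-!
# Generating series of the moments
-/

set_option autoImplicit false

open Filter Topology Set MeasureTheory

namespace Pool.Agent.R352.T

open Pool.Agent.R352.E (fr fl psi pd pdx pd_deriv mellin_rec Gamma_deriv zt PE dPE clF subset_clF clF_mono clF_le
  of_pow rat_mem)

variable {a : ℝ} {c : ℕ → ℝ}

lemma ma_rec (ha : 0 < a) (hc : ∀ i, pd i (a : ℂ) = ((c i : ℝ) : ℂ)) (n : ℕ) :
    ma a (n + 1) = ∑ i ∈ Finset.range (n + 1), (n.choose i : ℝ) * (ma a (n - i) * c i) := by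
  have h := mellin_rec n (a : ℂ) (by simpa using ha)
  simp only [mellin_ma, hc] at h
  have h2 : ((ma a (n + 1) : ℝ) : ℂ) =
      ((∑ i ∈ Finset.range (n + 1), (n.choose i : ℝ) * (ma a (n - i) * c i) : ℝ) : ℂ) := by
    push_cast
    exact h
  exact_mod_cast h2

/-- generating series -/
noncomputable def SA (a : ℝ) : PowerSeries ℝ := PowerSeries.mk fun n => ma a n / n.factorial
noncomputable def SC (c : ℕ → ℝ) : PowerSeries ℝ := PowerSeries.mk fun n => c n / n.factorial

lemma dSA (ha : 0 < a) (hc : ∀ i, pd i (a : ℂ) = ((c i : ℝ) : ℂ)) : PowerSeries.derivative ℝ (SA a) = SA a * SC c := by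
  ext n
  rw [PowerSeries.coeff_derivative, PowerSeries.coeff_mul]
  simp only [SA, SC, PowerSeries.coeff_mk]
  rw [ma_rec ha hc n, Finset.Nat.sum_antidiagonal_eq_sum_range_succ (fun i j => ma a i / i.factorial * (c j / j.factorial)),
    ← Finset.sum_range_reflect, Finset.sum_div, Finset.sum_mul]
  refine Finset.sum_congr rfl fun i hi => ?_
  have hi' : i ≤ n := by have := Finset.mem_range.1 hi; omega
  have e1 : n + 1 - 1 - i = n - i := by omega
  have e2 : n - (n - i) = i := by omega
  rw [e1, e2, Nat.factorial_succ, Nat.choose_symm hi']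
  have h3 : (n.choose i : ℝ) * i.factorial * (n - i).factorial = n.factorial := by
    exact_mod_cast Nat.choose_mul_factorial_mul_factorial hi'
  have h4 : (n.factorial : ℝ) ≠ 0 := by positivity
  have h5 : (i.factorial : ℝ) ≠ 0 := by positivity
  have h6 : ((n - i).factorial : ℝ) ≠ 0 := by positivity
  have h7 : ((n : ℝ) + 1) ≠ 0 := by positivity
  push_cast
  field_simp
  linear_combination (ma a i * c (n - i)) * h3

/-- generating series of `(-1)^l NA l x / l!` -/
noncomputable def SB (a x : ℝ) : PowerSeries ℝ := PE (-Real.log x) * SA a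

lemma coeff_SB (l : ℕ) (x : ℝ) : PowerSeries.coeff l (SB a x) = (-1) ^ l * NA a l x / l.factorial := by
  rw [SB, PowerSeries.coeff_mul]
  simp only [SA, PE, PowerSeries.coeff_mk]
  rw [Finset.Nat.sum_antidiagonal_eq_sum_range_succ (fun i j => (-Real.log x) ^ i / i.factorial * (ma a j / j.factorial)),
    ← Finset.sum_range_reflect, NA, Finset.mul_sum, Finset.sum_div]
  refine Finset.sum_congr rfl fun i hi => ?_
  have hi' : i ≤ l := by have := Finset.mem_range.1 hi; omega
  have e1 : l + 1 - 1 - i = l - i := by omega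
  have e2 : l - (l - i) = i := by omega
  rw [e1, e2, neg_pow]
  have h3 : (l.choose i : ℝ) * i.factorial * (l - i).factorial = l.factorial := by
    exact_mod_cast Nat.choose_mul_factorial_mul_factorial hi'
  have h4 : (l.factorial : ℝ) ≠ 0 := by positivity
  have h5 : (i.factorial : ℝ) ≠ 0 := by positivity
  have h6 : ((l - i).factorial : ℝ) ≠ 0 := by positivity
  have h7 : (-1 : ℝ) ^ l * (-1) ^ i = (-1) ^ (l - i) := by
    have e3 : l = (l - i) + i := by omega
    conv_lhs => rw [e3, pow_add]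
    rw [mul_assoc, ← mul_pow]
    norm_num
  have h8 : (-1 : ℝ) ^ l * ((l.choose i : ℝ) * (-1) ^ i * (Real.log x ^ (l - i) * ma a i)) / l.factorial =
      ((-1 : ℝ) ^ l * (-1) ^ i) * ((l.choose i : ℝ) * (Real.log x ^ (l - i) * ma a i)) / l.factorial := by ring
  rw [h8, h7]
  field_simp
  linear_combination (-(Real.log x ^ (l - i) * ma a i)) * h3

lemma dSB (ha : 0 < a) (hc : ∀ i, pd i (a : ℂ) = ((c i : ℝ) : ℂ)) (x : ℝ) :
    PowerSeries.derivative ℝ (SB a x) = SB a x * (SC c - PowerSeries.C (Real.log x)) := by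
  rw [SB, Derivation.leibniz, dSA ha hc, dPE]
  simp only [smul_eq_mul, neg_smul, PowerSeries.smul_eq_C_mul]
  ring

/-- the coefficients of the generating series lie in the closure -/
lemma coeff_SB_mem (ha : 0 < a) (hc : ∀ i, pd i (a : ℂ) = ((c i : ℝ) : ℂ)) {x : ℝ} {T : Set ℝ}
    (hG : Real.Gamma a ∈ clF T) (h0 : c 0 - Real.log x ∈ clF T) (J : ℕ)
    (hz : ∀ i, 1 ≤ i → i < J → c i ∈ clF T) : ∀ n ≤ J, PowerSeries.coeff n (SB a x) ∈ clF T := by
  have hc' : ∀ j < J, PowerSeries.coeff j (SC c - PowerSeries.C (Real.log x)) ∈ clF T := by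
    intro j hj
    rw [map_sub, PowerSeries.coeff_C, SC, PowerSeries.coeff_mk]
    cases j with
    | zero =>
      simp only [Nat.factorial_zero, Nat.cast_one, div_one, if_true]
      exact h0
    | succ j =>
      simp only [Nat.succ_ne_zero, if_false, sub_zero]
      exact (clF T).div_mem (hz _ (by omega) hj) (natCast_mem (clF T) _)
  intro n
  induction n using Nat.strong_induction_on with
  | _ n ih =>
    intro hn
    cases n with
    | zero =>
      rw [coeff_SB, NA_zero ha]
      simpa using hG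
    | succ n =>
      have h1 : PowerSeries.coeff n (PowerSeries.derivative ℝ (SB a x)) =
          PowerSeries.coeff n (SB a x * (SC c - PowerSeries.C (Real.log x))) := by rw [dSB ha hc]
      rw [PowerSeries.coeff_derivative, PowerSeries.coeff_mul] at h1
      have h2 : PowerSeries.coeff (n + 1) (SB a x) = (∑ p ∈ Finset.HasAntidiagonal.antidiagonal n, PowerSeries.coeff p.1 (SB a x) *
          PowerSeries.coeff p.2 (SC c - PowerSeries.C (Real.log x))) / ((n : ℝ) + 1) := by
        rw [eq_div_iff (by positivity), h1]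
      rw [h2]
      refine (clF T).div_mem ((clF T).sum_mem fun p hp => ?_) ?_
      · have hp' := Finset.HasAntidiagonal.mem_antidiagonal.1 hp
        exact (clF T).mul_mem (ih p.1 (by omega) (by omega)) (hc' p.2 (by omega))
      · exact_mod_cast natCast_mem (clF T) (n + 1)

lemma NA_mem (ha : 0 < a) (hc : ∀ i, pd i (a : ℂ) = ((c i : ℝ) : ℂ)) {x : ℝ} {T : Set ℝ}
    (hG : Real.Gamma a ∈ clF T) (h0 : c 0 - Real.log x ∈ clF T) (n : ℕ)
    (hz : ∀ i, 1 ≤ i → i < n → c i ∈ clF T) : NA a n x ∈ clF T := by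
  have h := coeff_SB_mem ha hc hG h0 n hz n le_rfl
  rw [coeff_SB] at h
  have h1 : NA a n x = (-1) ^ n * (((-1) ^ n * NA a n x / n.factorial) * n.factorial) := by
    have h4 : (n.factorial : ℝ) ≠ 0 := by positivity
    have h5 : (-1 : ℝ) ^ n * (-1) ^ n = 1 := by rw [← mul_pow]; norm_num
    rw [div_mul_cancel₀ _ h4, ← mul_assoc, h5, one_mul]
  rw [h1]
  exact (clF T).mul_mem ((clF T).pow_mem ((clF T).neg_mem (clF T).one_mem) _)
    ((clF T).mul_mem h (natCast_mem (clF T) _))

lemma pd_half' (i : ℕ) : pd i (((1 / 2 : ℝ) : ℝ) : ℂ) = ((ch i : ℝ) : ℂ) := by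
  have : (((1 / 2 : ℝ) : ℝ) : ℂ) = 1 / 2 := by push_cast; rfl
  rw [this]
  exact pd_half i

/-- membership for `a = 1/2` -/
lemma EA_half_mem {x : ℚ} (hx : 0 < x) {T : Set ℝ} (he : Real.exp 1 ∈ clF T) (hpi : Real.pi ∈ clF T)
    (h0 : Real.eulerMascheroniConstant + Real.log (4 * x) ∈ clF T) (n : ℕ)
    (hz : ∀ k, 2 ≤ k → k ≤ n → zt k ∈ clF T) (hg : ga (1 / 2) n x ∈ clF T) : EA (1 / 2) (n + 1) x ∈ clF T := by
  have hx' : (0 : ℝ) < x := by exact_mod_cast hx
  have hG : Real.Gamma (1 / 2) ∈ clF T := by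
    rw [Real.Gamma_one_half_eq]
    exact of_pow (n := 2) (by norm_num) (by rw [Real.sq_sqrt Real.pi_pos.le]; exact hpi)
  have hN : NA (1 / 2) n x ∈ clF T := by
    refine NA_mem (by norm_num) pd_half' hG ?_ n (fun i h1 h2 => ?_)
    · have : ch 0 - Real.log x = -(Real.eulerMascheroniConstant + Real.log (4 * x)) := by
        rw [ch, Real.log_mul (by norm_num) hx'.ne', show (4 : ℝ) = 2 ^ 2 by norm_num, Real.log_pow]
        push_cast
        ring
      rw [this]
      exact (clF T).neg_mem h0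
    · obtain ⟨j, rfl⟩ : ∃ j, i = j + 1 := ⟨i - 1, by omega⟩
      rw [ch]
      refine (clF T).mul_mem ((clF T).mul_mem ((clF T).pow_mem ((clF T).neg_mem (clF T).one_mem) _) (natCast_mem _ _))
        ((clF T).mul_mem ((clF T).sub_mem ((clF T).pow_mem ?_ _) (clF T).one_mem) (hz _ (by omega) (by omega)))
      exact_mod_cast natCast_mem (clF T) 2
  have h := EA_mem (a := 1 / 2) (x := x) (by norm_num) hx he n
  push_cast at h
  exact h hN hg

end Pool.Agent.R352.T
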