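import Pool.Agent.R352.T.Val
import Pool.Agent.R352.E.Gen

/-!
# The relation between the functions `E_{a,l}` and the incomplete gamma integrals
-/

set_option autoImplicit false

open Filter Topology Set MeasureTheory

namespace Pool.Agent.R352.T

open Pool.Agent.R352.E (fr fl fr_cont zero_of_deriv int_shift mellin_fl mellin_fl_zero)

variable {a : ℝ}

lemma term_bound (ha : 0 ≤ a) (l m : ℕ) {x R : ℝ} (hx : |x| ≤ R) :
    ‖(-x) ^ m / ((m + 1).factorial * ((m : ℝ) + 1 + a) ^ l)‖ ≤ R ^ m / m.factorial := by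
  have h0 : (1 : ℝ) ≤ (m : ℝ) + 1 + a := by linarith [show (0 : ℝ) ≤ m by positivity]
  rw [norm_div, norm_pow, norm_neg, Real.norm_eq_abs, norm_mul, norm_pow, Real.norm_eq_abs, Real.norm_eq_abs,
    abs_of_nonneg (by positivity : (0 : ℝ) ≤ ((m + 1).factorial : ℝ)), abs_of_nonneg (by positivity : (0 : ℝ) ≤ (m : ℝ) + 1 + a)]
  have h1 : |x| ^ m ≤ R ^ m := pow_le_pow_left₀ (abs_nonneg _) hx m
  have h2 : (m.factorial : ℝ) ≤ (m + 1).factorial * ((m : ℝ) + 1 + a) ^ l := by
    have h3 : (m.factorial : ℝ) ≤ (m + 1).factorial := by exact_mod_cast Nat.factorial_le (Nat.le_succ m)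
    have h4 : (1 : ℝ) ≤ ((m : ℝ) + 1 + a) ^ l := one_le_pow₀ h0
    calc (m.factorial : ℝ) ≤ (m + 1).factorial * 1 := by rw [mul_one]; exact h3
      _ ≤ _ := mul_le_mul_of_nonneg_left h4 (by positivity)
  exact div_le_div₀ (by linarith [pow_nonneg (abs_nonneg x) m]) h1 (by positivity) h2

/-- the quotient of `E_{a,l}(x)` by `x` -/
noncomputable def EB (a : ℝ) (l : ℕ) (x : ℝ) : ℝ :=
  ∑' m : ℕ, (-x) ^ m / ((m + 1).factorial * ((m : ℝ) + 1 + a) ^ l)

lemma EB_summable (ha : 0 ≤ a) (l : ℕ) (x : ℝ) :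
    Summable (fun m : ℕ => (-x) ^ m / ((m + 1).factorial * ((m : ℝ) + 1 + a) ^ l)) :=
  Summable.of_norm_bounded (Real.summable_pow_div_factorial |x|) fun m => term_bound ha l m le_rfl

lemma EA_eq (l : ℕ) (x : ℝ) : EA a l x = x * EB a l x := by
  rw [EA, EB, ← tsum_mul_left]
  refine tsum_congr fun m => ?_
  rw [pow_succ]; ring

lemma EA_deriv (ha : 0 ≤ a) (l : ℕ) (x : ℝ) :
    HasDerivAt (EA a (l + 1)) (EB a l x - a * EB a (l + 1) x) x := by
  set R : ℝ := |x| + 1 with hR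
  have hxb : x ∈ Metric.ball (0 : ℝ) R := by
    rw [mem_ball_zero_iff, Real.norm_eq_abs]; linarith
  have hs0 : Summable (fun m : ℕ => -(-x) ^ (m + 1) / ((m + 1).factorial * ((m : ℝ) + 1 + a) ^ (l + 1))) := by
    have := (EB_summable ha (l + 1) x).mul_left x
    refine this.congr fun m => ?_
    rw [pow_succ]; ring
  have key : HasDerivAt (EA a (l + 1))
      (∑' m : ℕ, ((m : ℝ) + 1) * ((-x) ^ m / ((m + 1).factorial * ((m : ℝ) + 1 + a) ^ (l + 1)))) x := by
    refine hasDerivAt_tsum_of_isPreconnected (u := fun m : ℕ => R ^ m / m.factorial) (Real.summable_pow_div_factorial R)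
      Metric.isOpen_ball (convex_ball (0 : ℝ) R).isPreconnected
      (g := fun (m : ℕ) (y : ℝ) => -(-y) ^ (m + 1) / ((m + 1).factorial * ((m : ℝ) + 1 + a) ^ (l + 1)))
      (g' := fun (m : ℕ) (y : ℝ) => ((m : ℝ) + 1) * ((-y) ^ m / ((m + 1).factorial * ((m : ℝ) + 1 + a) ^ (l + 1))))
      ?_ ?_ (y₀ := x) hxb hs0 hxb
    · intro m y _
      have h1 : HasDerivAt (fun y : ℝ => -(-y) ^ (m + 1)) (-((m + 1 : ℕ) * (-y) ^ m * -1)) y := by
        have := (((hasDerivAt_neg y)).pow (m + 1)).neg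
        exact this
      have h2 := h1.div_const (((m + 1).factorial : ℝ) * ((m : ℝ) + 1 + a) ^ (l + 1))
      refine h2.congr_deriv ?_
      push_cast
      ring
    · intro m y hy
      rw [mem_ball_zero_iff, Real.norm_eq_abs] at hy
      have h0 : (0 : ℝ) < (m : ℝ) + 1 + a := by positivity
      have h1 : ((m : ℝ) + 1) * ((-y) ^ m / ((m + 1).factorial * ((m : ℝ) + 1 + a) ^ (l + 1))) =
          ((m : ℝ) + 1) / ((m : ℝ) + 1 + a) * ((-y) ^ m / ((m + 1).factorial * ((m : ℝ) + 1 + a) ^ l)) := by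
        rw [pow_succ ((m : ℝ) + 1 + a)]
        have : ((m + 1).factorial : ℝ) ≠ 0 := by positivity
        field_simp
      rw [h1, norm_mul]
      have h2 : ‖((m : ℝ) + 1) / ((m : ℝ) + 1 + a)‖ ≤ 1 := by
        rw [Real.norm_eq_abs, abs_of_nonneg (by positivity), div_le_one h0]
        linarith
      calc _ ≤ 1 * _ := mul_le_mul_of_nonneg_right h2 (norm_nonneg _)
        _ ≤ _ := by rw [one_mul]; exact term_bound ha l m hy.le
  refine key.congr_deriv ?_
  rw [EB, EB, ← tsum_mul_left, ← (EB_summable ha l x).tsum_sub ((EB_summable ha (l + 1) x).mul_left a)]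
  refine tsum_congr fun m => ?_
  have h0 : ((m : ℝ) + 1 + a) ≠ 0 := by positivity
  have : ((m + 1).factorial : ℝ) ≠ 0 := by positivity
  rw [pow_succ ((m : ℝ) + 1 + a)]
  field_simp
  ring

lemma EA_deriv' (ha : 0 ≤ a) (l : ℕ) {x : ℝ} (hx : 0 < x) :
    HasDerivAt (EA a (l + 1)) ((EA a l x - a * EA a (l + 1) x) / x) x := by
  refine (EA_deriv ha l x).congr_deriv ?_
  rw [EA_eq, EA_eq]
  field_simp

lemma EA_zero_left (x : ℝ) : EA a 0 x = 1 - Real.exp (-x) := by
  have h1 : EA a 0 x = Pool.Agent.R352.E.EE 0 x := by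
    rw [EA, Pool.Agent.R352.E.EE]
    simp
  rw [h1, Pool.Agent.R352.E.EE_zero_left]

lemma EA_tendsto (ha : 0 ≤ a) (l : ℕ) : Tendsto (EA a (l + 1)) (𝓝[>] 0) (𝓝 0) := by
  have h := (EA_deriv ha l 0).continuousAt.tendsto
  rw [EA_eq, zero_mul] at h
  exact h.mono_left nhdsWithin_le_nhds

/-- `t^(a-1) (log t)^n exp(-t)` -/
noncomputable def fa (a : ℝ) (n : ℕ) (t : ℝ) : ℝ := t ^ (a - 1) * fr n t

lemma fa_cont (n : ℕ) : ContinuousOn (fa a n) (Ioi 0) := by
  refine ContinuousOn.mul ?_ (fr_cont n)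
  intro t ht
  exact (Real.continuousAt_rpow_const t (a - 1) (Or.inl (ne_of_gt ht))).continuousWithinAt

lemma fa_mellin {t : ℝ} (ht : 0 < t) (n : ℕ) : (t : ℂ) ^ ((a : ℂ) - 1) • fl n t = ((fa a n t : ℝ) : ℂ) := by
  rw [fa, fl, smul_eq_mul]
  push_cast
  rw [← Complex.ofReal_one, ← Complex.ofReal_sub, ← Complex.ofReal_cpow ht.le]

lemma fa_integrable (ha : 0 < a) (n : ℕ) : IntegrableOn (fa a n) (Ioi 0) := by
  have h : MellinConvergent (fl n) a := by
    rcases n with _ | n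
    · have h1 := Complex.GammaIntegral_convergent (s := (a : ℂ)) (by simpa using ha)
      unfold MellinConvergent
      refine h1.congr_fun (fun t ht => ?_) measurableSet_Ioi
      simp only [fl, fr, pow_zero, one_mul, smul_eq_mul]
      ring
    · exact (mellin_fl n (by simpa using ha)).1
  unfold MellinConvergent at h
  have h2 : IntegrableOn (fun t : ℝ => ((fa a n t : ℝ) : ℂ)) (Ioi 0) := by
    refine h.congr_fun (fun t ht => ?_) measurableSet_Ioi
    exact fa_mellin ht n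
  have h3 : IntegrableOn (fun t : ℝ => RCLike.re ((fa a n t : ℝ) : ℂ)) (Ioi 0) := h2.re
  refine h3.congr_fun (fun t ht => ?_) measurableSet_Ioi
  simp

/-- the moments -/
noncomputable def ma (a : ℝ) (n : ℕ) : ℝ := ∫ t in Ioi (0 : ℝ), fa a n t

lemma mellin_ma (n : ℕ) : mellin (fl n) a = ((ma a n : ℝ) : ℂ) := by
  rw [mellin, ma, ← integral_complex_ofReal]
  refine setIntegral_congr_fun measurableSet_Ioi fun t ht => ?_
  exact fa_mellin ht n

lemma ma_zero (ha : 0 < a) : ma a 0 = Real.Gamma a := by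
  have h := mellin_ma (a := a) 0
  rw [mellin_fl_zero (by simpa using ha), Complex.Gamma_ofReal] at h
  exact_mod_cast h.symm

/-- incomplete moments -/
noncomputable def Ma (a : ℝ) (n : ℕ) (x : ℝ) : ℝ := ∫ t in (0 : ℝ)..x, fa a n t

lemma fa_interval (ha : 0 < a) (n : ℕ) {x : ℝ} (hx : 0 ≤ x) : IntervalIntegrable (fa a n) volume 0 x := by
  rw [intervalIntegrable_iff_integrableOn_Ioc_of_le hx]
  exact (fa_integrable ha n).mono_set Ioc_subset_Ioi_self

lemma Ma_deriv (ha : 0 < a) (n : ℕ) {x : ℝ} (hx : 0 < x) : HasDerivAt (Ma a n) (fa a n x) x := by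
  have hc : ContinuousAt (fa a n) x := (fa_cont n).continuousAt (Ioi_mem_nhds hx)
  refine intervalIntegral.integral_hasDerivAt_right (fa_interval ha n hx.le) ?_ hc
  exact ContinuousOn.stronglyMeasurableAtFilter isOpen_Ioi (fa_cont n) x hx

lemma ma_eq (ha : 0 < a) (n : ℕ) {x : ℝ} (hx : 0 < x) : ma a n = Ma a n x + ∫ t in Ioi x, fa a n t := by
  rw [ma, Ma, intervalIntegral.integral_of_le hx.le, ← setIntegral_union, Ioc_union_Ioi_eq_Ioi hx.le]
  · exact Set.Ioc_disjoint_Ioi le_rfl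
  · exact measurableSet_Ioi
  · exact (fa_integrable ha n).mono_set Ioc_subset_Ioi_self
  · exact (fa_integrable ha n).mono_set (Ioi_subset_Ioi hx.le)

lemma abs_int_tendsto (ha : 0 < a) (n : ℕ) : Tendsto (fun x : ℝ => ∫ t in (0 : ℝ)..x, |fa a n t|) (𝓝[>] 0) (𝓝 0) := by
  have h1 : IntegrableOn (fun t => |fa a n t|) (uIcc (0 : ℝ) 1) := by
    rw [uIcc_of_le zero_le_one, integrableOn_Icc_iff_integrableOn_Ioc]
    exact ((fa_integrable ha n).mono_set Ioc_subset_Ioi_self).abs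
  have h2 := intervalIntegral.continuousOn_primitive_interval h1
  have h3 := h2 0 (by simp)
  rw [ContinuousWithinAt] at h3
  simp only [intervalIntegral.integral_same] at h3
  refine h3.mono_left ?_
  rw [uIcc_of_le zero_le_one]
  refine nhdsWithin_le_iff.2 ?_
  exact Icc_mem_nhdsGT zero_lt_one

/-- decay at `0` -/
lemma log_Ma_tendsto (ha : 0 < a) (k n : ℕ) : Tendsto (fun x : ℝ => Real.log x ^ k * Ma a n x) (𝓝[>] 0) (𝓝 0) := by
  refine squeeze_zero_norm' ?_ (abs_int_tendsto ha (k + n))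
  filter_upwards [Ioo_mem_nhdsGT (show (0 : ℝ) < 1 from one_pos)] with x hx
  obtain ⟨hx0, hx1⟩ := hx
  rw [norm_mul, norm_pow, Real.norm_eq_abs, Ma, Real.norm_eq_abs]
  have h1 : |∫ t in (0 : ℝ)..x, fa a n t| ≤ ∫ t in (0 : ℝ)..x, |fa a n t| :=
    intervalIntegral.abs_integral_le_integral_abs hx0.le
  calc |Real.log x| ^ k * |∫ t in (0 : ℝ)..x, fa a n t| ≤ |Real.log x| ^ k * ∫ t in (0 : ℝ)..x, |fa a n t| :=
        mul_le_mul_of_nonneg_left h1 (by positivity)
    _ = ∫ t in (0 : ℝ)..x, |Real.log x| ^ k * |fa a n t| := by rw [intervalIntegral.integral_const_mul]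
    _ ≤ ∫ t in (0 : ℝ)..x, |fa a (k + n) t| := by
        apply intervalIntegral.integral_mono_on_of_le_Ioo hx0.le
        · exact ((fa_interval ha n hx0.le).abs).const_mul _
        · exact (fa_interval ha (k + n) hx0.le).abs
        · intro t ht
          have h2 : |Real.log x| ≤ |Real.log t| := by
            rw [abs_of_neg (Real.log_neg hx0 hx1), abs_of_neg (Real.log_neg ht.1 (ht.2.trans hx1))]
            have := Real.log_le_log ht.1 ht.2.le
            linarith
          rw [fa, fa, fr, fr, abs_mul, abs_mul, abs_mul, abs_mul, pow_add, abs_mul, abs_pow, abs_pow]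
          have h3 : |Real.log x| ^ k ≤ |Real.log t| ^ k := pow_le_pow_left₀ (abs_nonneg _) h2 k
          calc |Real.log x| ^ k * (|t ^ (a - 1)| * (|Real.log t| ^ n * |Real.exp (-t)|)) ≤
                |Real.log t| ^ k * (|t ^ (a - 1)| * (|Real.log t| ^ n * |Real.exp (-t)|)) :=
                mul_le_mul_of_nonneg_right h3 (by positivity)
            _ = _ := by ring

/-- the left hand side -/
noncomputable def RA (a : ℝ) (n : ℕ) (x : ℝ) : ℝ := n.factorial * (x ^ a * (1 / a ^ (n + 1) - EA a (n + 1) x))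

/-- the right hand side -/
noncomputable def QA (a : ℝ) (n : ℕ) (x : ℝ) : ℝ :=
  ∑ i ∈ Finset.range (n + 1), (n.choose i : ℝ) * (-1) ^ i * (Real.log x ^ (n - i) * Ma a i x)

lemma RA_deriv_aux (ha : 0 < a) (n : ℕ) {x : ℝ} (hx : 0 < x) :
    HasDerivAt (RA a n) (n.factorial * (x ^ (a - 1) * (1 / a ^ n - EA a n x))) x := by
  have h1 : HasDerivAt (fun x : ℝ => x ^ a) (a * x ^ (a - 1)) x := Real.hasDerivAt_rpow_const (Or.inl hx.ne')
  have h2 := (EA_deriv' ha.le n hx).const_sub (1 / a ^ (n + 1))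
  refine ((h1.mul h2).const_mul (n.factorial : ℝ)).congr_deriv ?_
  congr 1
  have h3 : x ^ a = x ^ (a - 1) * x := by
    rw [← Real.rpow_add_one hx.ne']; congr 1; ring
  rw [h3, pow_succ]
  field_simp
  ring

lemma RA_deriv_zero (ha : 0 < a) {x : ℝ} (hx : 0 < x) : HasDerivAt (RA a 0) (fa a 0 x) x := by
  refine (RA_deriv_aux ha 0 hx).congr_deriv ?_
  rw [EA_zero_left, fa, fr]
  simp

lemma RA_deriv_succ (ha : 0 < a) (n : ℕ) {x : ℝ} (hx : 0 < x) :
    HasDerivAt (RA a (n + 1)) (((n : ℝ) + 1) * (RA a n x / x)) x := by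
  refine (RA_deriv_aux ha (n + 1) hx).congr_deriv ?_
  have h3 : x ^ a = x ^ (a - 1) * x := by
    rw [← Real.rpow_add_one hx.ne']; congr 1; ring
  rw [RA, h3, Nat.factorial_succ]
  push_cast
  field_simp

lemma RA_tendsto (ha : 0 < a) (n : ℕ) : Tendsto (RA a n) (𝓝[>] 0) (𝓝 0) := by
  have h1 : Tendsto (fun x : ℝ => x ^ a) (𝓝[>] 0) (𝓝 0) := by
    have := (Real.continuousAt_rpow_const 0 a (Or.inr ha.le)).tendsto
    rw [Real.zero_rpow ha.ne'] at this
    exact this.mono_left nhdsWithin_le_nhds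
  have h2 := (h1.mul ((EA_tendsto ha.le n).const_sub (1 / a ^ (n + 1)))).const_mul (n.factorial : ℝ)
  rw [zero_mul, mul_zero] at h2
  exact h2

lemma QA_deriv_zero (ha : 0 < a) {x : ℝ} (hx : 0 < x) : HasDerivAt (QA a 0) (fa a 0 x) x := by
  have h : QA a 0 = Ma a 0 := by
    funext x
    simp [QA]
  rw [h]
  exact Ma_deriv ha 0 hx

lemma prod_deriv (ha : 0 < a) (k n : ℕ) {x : ℝ} (hx : 0 < x) : HasDerivAt (fun x : ℝ => Real.log x ^ k * Ma a n x)
    ((k : ℝ) * Real.log x ^ (k - 1) * x⁻¹ * Ma a n x + Real.log x ^ k * fa a n x) x :=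
  ((Real.hasDerivAt_log hx.ne').pow k).mul (Ma_deriv ha n hx)

lemma QA_deriv_succ (ha : 0 < a) (n : ℕ) {x : ℝ} (hx : 0 < x) :
    HasDerivAt (QA a (n + 1)) (((n : ℝ) + 1) * (QA a n x / x)) x := by
  have h1 : HasDerivAt (QA a (n + 1)) (∑ i ∈ Finset.range (n + 1 + 1), ((n + 1).choose i : ℝ) * (-1) ^ i *
        (((n + 1 - i : ℕ) : ℝ) * Real.log x ^ (n + 1 - i - 1) * x⁻¹ * Ma a i x + Real.log x ^ (n + 1 - i) * fa a i x)) x := by
    have h2 := HasDerivAt.sum (u := Finset.range (n + 1 + 1))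
      (A := fun i (x : ℝ) => ((n + 1).choose i : ℝ) * (-1) ^ i * (Real.log x ^ (n + 1 - i) * Ma a i x))
      (fun i _ => (prod_deriv ha (n + 1 - i) i hx).const_mul (((n + 1).choose i : ℝ) * (-1) ^ i))
    have h3 : (∑ i ∈ Finset.range (n + 1 + 1), fun x : ℝ => ((n + 1).choose i : ℝ) * (-1) ^ i * (Real.log x ^ (n + 1 - i) * Ma a i x))
        = QA a (n + 1) := by
      ext y
      rw [Finset.sum_apply, QA]
    rw [h3] at h2
    exact h2
  refine h1.congr_deriv ?_
  have hz : ∑ i ∈ Finset.range (n + 1 + 1), ((n + 1).choose i : ℝ) * (-1) ^ i * (Real.log x ^ (n + 1 - i) * fa a i x) = 0 := by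
    have h4 : ∀ i ∈ Finset.range (n + 1 + 1), ((n + 1).choose i : ℝ) * (-1) ^ i * (Real.log x ^ (n + 1 - i) * fa a i x)
        = (x ^ (a - 1) * Real.log x ^ (n + 1) * Real.exp (-x)) * ((-1) ^ i * 1 ^ (n + 1 - i) * ((n + 1).choose i : ℝ)) := by
      intro i hi
      have e : Real.log x ^ (n + 1) = Real.log x ^ (n + 1 - i) * Real.log x ^ i := by
        rw [← pow_add]; congr 1; have := Finset.mem_range.1 hi; omega
      rw [fa, fr, one_pow, e]
      ring
    rw [Finset.sum_congr rfl h4, ← Finset.mul_sum, ← add_pow]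
    simp
  have hs : ∑ i ∈ Finset.range (n + 1 + 1), ((n + 1).choose i : ℝ) * (-1) ^ i *
        (((n + 1 - i : ℕ) : ℝ) * Real.log x ^ (n + 1 - i - 1) * x⁻¹ * Ma a i x + Real.log x ^ (n + 1 - i) * fa a i x)
      = ∑ i ∈ Finset.range (n + 1), (((n : ℝ) + 1) * x⁻¹) * ((n.choose i : ℝ) * (-1) ^ i * (Real.log x ^ (n - i) * Ma a i x)) := by
    simp only [mul_add]
    rw [Finset.sum_add_distrib, hz, add_zero, Finset.sum_range_succ]
    simp only [Nat.sub_self, Nat.cast_zero, zero_mul, mul_zero, add_zero]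
    refine Finset.sum_congr rfl fun i hi => ?_
    have hi' := Finset.mem_range.1 hi
    have e1 : n + 1 - i = n - i + 1 := by omega
    have e2 : ((n + 1).choose i : ℝ) * ((n - i + 1 : ℕ) : ℝ) = (n + 1) * (n.choose i : ℝ) := by
      have := Nat.choose_mul_succ_eq n i
      rw [e1] at this
      have h5 : ((n.choose i * (n + 1) : ℕ) : ℝ) = (((n + 1).choose i * (n - i + 1) : ℕ) : ℝ) := by rw [this]
      push_cast at h5 ⊢
      linarith
    rw [e1, Nat.add_sub_cancel]
    linear_combination ((-1 : ℝ) ^ i * Real.log x ^ (n - i) * x⁻¹ * Ma a i x) * e2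
  rw [hs, ← Finset.mul_sum, QA]
  ring

lemma QA_tendsto (ha : 0 < a) (n : ℕ) : Tendsto (QA a n) (𝓝[>] 0) (𝓝 0) := by
  have h : Tendsto (fun x : ℝ => ∑ i ∈ Finset.range (n + 1), (n.choose i : ℝ) * (-1) ^ i * (Real.log x ^ (n - i) * Ma a i x))
      (𝓝[>] 0) (𝓝 (∑ i ∈ Finset.range (n + 1), (n.choose i : ℝ) * (-1) ^ i * 0)) :=
    tendsto_finsetSum _ fun i _ => (log_Ma_tendsto ha (n - i) i).const_mul _
  simp only [mul_zero, Finset.sum_const_zero] at h
  exact h

lemma RA_eq_QA (ha : 0 < a) (n : ℕ) : ∀ {x : ℝ}, 0 < x → RA a n x = QA a n x := by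
  induction n with
  | zero =>
    intro x hx
    have h := zero_of_deriv (F := fun x => RA a 0 x - QA a 0 x) (fun y hy => by
      have := (RA_deriv_zero ha hy).sub (QA_deriv_zero ha hy)
      rwa [sub_self] at this) (by
      have := (RA_tendsto ha 0).sub (QA_tendsto ha 0)
      rwa [sub_self] at this) hx
    linarith
  | succ n ih =>
    intro x hx
    have h := zero_of_deriv (F := fun x => RA a (n + 1) x - QA a (n + 1) x) (fun y hy => by
      have := (RA_deriv_succ ha n hy).sub (QA_deriv_succ ha n hy)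
      rwa [ih hy, sub_self] at this) (by
      have := (RA_tendsto ha (n + 1)).sub (QA_tendsto ha (n + 1))
      rwa [sub_self] at this) hx
    linarith

/-- the tail integrals -/
noncomputable def ga (a : ℝ) (n : ℕ) (x : ℝ) : ℝ :=
  ∫ s in Ioi (0 : ℝ), (1 + s / x) ^ (a - 1) * Real.log (1 + s / x) ^ n * Real.exp (-s)

lemma exp_ga (n : ℕ) {x : ℝ} (hx : 0 < x) :
    (-1) ^ n * (Real.exp (-x) * x ^ (a - 1) * ga a n x) =
      ∫ t in Ioi x, t ^ (a - 1) * (Real.log x - Real.log t) ^ n * Real.exp (-t) := by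
  rw [← int_shift (fun t => t ^ (a - 1) * (Real.log x - Real.log t) ^ n * Real.exp (-t)), ga, ← integral_const_mul,
    ← integral_const_mul]
  refine setIntegral_congr_fun measurableSet_Ioi fun s hs => ?_
  have hs' : (0 : ℝ) < s := hs
  have h0 : (1 + s / x) = (x + s) / x := by field_simp
  have h1 : Real.log (1 + s / x) = Real.log (x + s) - Real.log x := by
    rw [h0, Real.log_div (by positivity) hx.ne']
  have h2 : Real.exp (-(x + s)) = Real.exp (-x) * Real.exp (-s) := by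
    rw [← Real.exp_add]; congr 1; ring
  have h3 : (x + s) ^ (a - 1) = x ^ (a - 1) * (1 + s / x) ^ (a - 1) := by
    rw [← Real.mul_rpow hx.le (by positivity), h0, mul_div_cancel₀ _ hx.ne']
  have h4 : (Real.log x - Real.log (x + s)) ^ n = (-1) ^ n * Real.log (1 + s / x) ^ n := by
    rw [← mul_pow, h1]; congr 1; ring
  simp only [h2, h3, h4]
  ring

lemma exp_ga' (ha : 0 < a) (n : ℕ) {x : ℝ} (hx : 0 < x) :
    (-1) ^ n * (Real.exp (-x) * x ^ (a - 1) * ga a n x) =
      ∑ i ∈ Finset.range (n + 1), (n.choose i : ℝ) * (-1) ^ i * (Real.log x ^ (n - i) * ∫ t in Ioi x, fa a i t) := by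
  rw [exp_ga n hx]
  have h1 : ∀ t : ℝ, t ^ (a - 1) * (Real.log x - Real.log t) ^ n * Real.exp (-t) =
      ∑ i ∈ Finset.range (n + 1), ((n.choose i : ℝ) * (-1) ^ i * Real.log x ^ (n - i)) * fa a i t := by
    intro t
    rw [sub_eq_neg_add (Real.log x), add_pow, Finset.mul_sum, Finset.sum_mul]
    refine Finset.sum_congr rfl fun i _ => ?_
    rw [fa, fr, neg_pow]
    ring
  simp only [h1]
  rw [integral_finsetSum]
  · refine Finset.sum_congr rfl fun i _ => ?_
    rw [integral_const_mul]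
    ring
  · intro i _
    exact ((fa_integrable ha i).mono_set (Ioi_subset_Ioi hx.le)).const_mul _

/-- the full moments -/
noncomputable def NA (a : ℝ) (n : ℕ) (x : ℝ) : ℝ :=
  ∑ i ∈ Finset.range (n + 1), (n.choose i : ℝ) * (-1) ^ i * (Real.log x ^ (n - i) * ma a i)

/-- the main relation -/
lemma EA_rel (ha : 0 < a) (n : ℕ) {x : ℝ} (hx : 0 < x) :
    n.factorial * (x ^ a * (1 / a ^ (n + 1) - EA a (n + 1) x)) =
      NA a n x - (-1) ^ n * (Real.exp (-x) * x ^ (a - 1) * ga a n x) := by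
  have h := RA_eq_QA ha n hx
  rw [RA, QA] at h
  rw [h, exp_ga' ha n hx, NA, ← Finset.sum_sub_distrib]
  refine Finset.sum_congr rfl fun i _ => ?_
  rw [ma_eq ha i hx]
  ring

end Pool.Agent.R352.T
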