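import Pool.Agent.R352.E.TowerC

/-!
# Towers of twisted iterated integrals over `ℚ(z, w)`, `w = exp(-z/q)`: the derivation
-/

set_option autoImplicit false
set_option linter.unusedSectionVars false

open MvPolynomial

namespace Pool.Agent.R352.T

open Pool.Agent.R352.E (der_sum coeff_X_mul_pderiv pderiv_aeval)

/-- A tower of twisted integrals: variables `z`, `w` and the variables `i < w`, which are iterated integrals:
the derivative of the variable `i` is the variable `pr i`, or `1 - w ^ m i` if `pr i` is `none`. -/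
structure Tv (σ : Type) [LinearOrder σ] where
  z : σ
  w : σ
  pr : σ → Option σ
  m : σ → ℕ
  hwz : w < z
  htop : ∀ i, i ≠ z → i ≤ w
  hpr : ∀ i j, i < w → pr i = some j → i < j ∧ j < w
  hinj : ∀ i i' j, i < w → i' < w → pr i = some j → pr i' = some j → i = i'
  hm : ∀ i, i < w → pr i = none → 1 ≤ m i
  b : σ → ℕ
  hb : ∀ i j, i < w → pr i = some j → b j = b i
  hminj : ∀ i i', i < w → i' < w → pr i = none → pr i' = none → m i = m i' → b i = b i' → i = i'

section

variable {σ : Type} [Fintype σ] [LinearOrder σ] (t : Tv σ) (q : ℕ)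

/-- the derivative of the variable `i < w` -/
noncomputable def Tv.g (i : σ) : MvPolynomial σ ℚ :=
  match t.pr i with
  | some j => X j
  | none => 1 - X t.w ^ t.m i

/-- the derivatives of the variables with respect to `q z d/dz` -/
noncomputable def Tv.dX (i : σ) : MvPolynomial σ ℚ :=
  if i = t.z then C (q : ℚ) * X t.z else if i = t.w then -(X t.z * X t.w) else C (q : ℚ) * t.g i - C (t.b i : ℚ) * X i

/-- the derivation `q z d/dz` -/
noncomputable def Tv.D : Derivation ℚ (MvPolynomial σ ℚ) (MvPolynomial σ ℚ) := mkDerivation ℚ (t.dX q)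

lemma Tv.D_z : t.D q (X t.z) = C (q : ℚ) * X t.z := by
  rw [Tv.D, mkDerivation_X, Tv.dX, if_pos rfl]

lemma Tv.D_w : t.D q (X t.w) = -(X t.z * X t.w) := by
  rw [Tv.D, mkDerivation_X, Tv.dX, if_neg t.hwz.ne, if_pos rfl]

lemma Tv.D_v {i : σ} (hi : i < t.w) : t.D q (X i) = C (q : ℚ) * t.g i - C (t.b i : ℚ) * X i := by
  rw [Tv.D, mkDerivation_X, Tv.dX, if_neg (hi.trans t.hwz).ne, if_neg hi.ne]

lemma Tv.D_eq (G : MvPolynomial σ ℚ) : t.D q G = ∑ i, t.D q (X i) * pderiv i G := by
  have h1 : t.D q = ∑ i, (t.D q (X i)) • (pderiv i : Derivation ℚ (MvPolynomial σ ℚ) (MvPolynomial σ ℚ)) := by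
    apply derivation_ext
    intro j
    rw [der_sum, Finset.sum_eq_single j]
    · simp
    · intro i _ hij
      rw [Derivation.smul_apply, pderiv_X_of_ne hij.symm, smul_zero]
    · intro h; exact absurd (Finset.mem_univ j) h
  conv_lhs => rw [h1]
  rw [der_sum]
  rfl

lemma Tv.comm (u : σ) (G : MvPolynomial σ ℚ) :
    pderiv u (t.D q G) = t.D q (pderiv u G) + ∑ i, pderiv u (t.D q (X i)) * pderiv i G := by
  have h1 : ⁅(pderiv u : Derivation ℚ (MvPolynomial σ ℚ) (MvPolynomial σ ℚ)), t.D q⁆ =
      ∑ i, (pderiv u (t.D q (X i))) • (pderiv i : Derivation ℚ (MvPolynomial σ ℚ) (MvPolynomial σ ℚ)) := by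
    apply derivation_ext
    intro j
    rw [der_sum, Finset.sum_eq_single j]
    · rw [Derivation.commutator_apply, Derivation.smul_apply, pderiv_X_self]
      have h2 : t.D q (pderiv u (X j : MvPolynomial σ ℚ)) = 0 := by
        by_cases h : j = u
        · rw [h, pderiv_X_self]; simp
        · rw [pderiv_X_of_ne h]; simp
      rw [h2]
      simp
    · intro i _ hij
      rw [Derivation.smul_apply, pderiv_X_of_ne hij.symm, smul_zero]
    · intro h; exact absurd (Finset.mem_univ j) h
  have h2 := congrArg (fun d : Derivation ℚ (MvPolynomial σ ℚ) (MvPolynomial σ ℚ) => d G) h1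
  simp only [Derivation.commutator_apply, der_sum, Derivation.smul_apply, smul_eq_mul] at h2
  linear_combination h2

/-- `pderiv u` of the derivatives of the variables -/
lemma Tv.pderiv_D_X {u i : σ} (hu : u < t.w) (h : ¬ (i < t.w ∧ t.pr i = some u)) :
    pderiv u (t.D q (X i)) = if i = u then -C (t.b u : ℚ) else 0 := by
  have hw0 : pderiv u (X t.w : MvPolynomial σ ℚ) = 0 := pderiv_X_of_ne hu.ne'
  have hz0 : pderiv u (X t.z : MvPolynomial σ ℚ) = 0 := pderiv_X_of_ne (hu.trans t.hwz).ne'
  rw [Tv.D, mkDerivation_X, Tv.dX]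
  by_cases h1 : i = t.z
  · rw [if_pos h1, if_neg (by rw [h1]; exact (hu.trans t.hwz).ne'), pderiv_C_mul, hz0, mul_zero]
  by_cases h2 : i = t.w
  · rw [if_neg h1, if_pos h2, if_neg (by rw [h2]; exact hu.ne'), map_neg, pderiv_mul, hw0, hz0]; simp
  rw [if_neg h1, if_neg h2, map_sub, pderiv_C_mul, pderiv_C_mul]
  have hi : i < t.w := lt_of_le_of_ne (t.htop i h1) h2
  have hg : pderiv u (t.g i) = 0 := by
    rw [Tv.g]
    cases hp : t.pr i with
    | none =>
      simp only
      rw [map_sub, pderiv_one, pderiv_pow, hw0]; simp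
    | some j =>
      simp only
      have : j ≠ u := by
        rintro rfl
        exact h ⟨hi, hp⟩
      rw [pderiv_X_of_ne this]
  rw [hg, mul_zero, zero_sub]
  split_ifs with h3
  · rw [h3, pderiv_X_self, mul_one]
  · rw [pderiv_X_of_ne h3, mul_zero, neg_zero]

/-- vanishing of all `k`-fold derivatives with respect to the variables `< w` -/
def Tv.Dg (t : Tv σ) : ℕ → MvPolynomial σ ℚ → Prop
  | 0, G => G = 0
  | k + 1, G => ∀ v, v < t.w → Tv.Dg t k (pderiv v G)

lemma Tv.Dg_zero (k : ℕ) : t.Dg k 0 := by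
  induction k with
  | zero => rfl
  | succ k ih => intro v _; rw [map_zero]; exact ih

lemma Tv.Dg_succ {k : ℕ} {G : MvPolynomial σ ℚ} (h : t.Dg k G) : t.Dg (k + 1) G := by
  induction k generalizing G with
  | zero => intro v _; have : G = 0 := h; rw [this, map_zero]; rfl
  | succ k ih => intro v hv; exact ih (h v hv)

lemma Tv.Dg_mono {k l : ℕ} (hkl : k ≤ l) {G : MvPolynomial σ ℚ} (h : t.Dg k G) : t.Dg l G := by
  induction l, hkl using Nat.le_induction with
  | base => exact h
  | succ l _ ih => exact t.Dg_succ ih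

lemma Tv.Dg_add {k : ℕ} {G H : MvPolynomial σ ℚ} (h : t.Dg k G) (h' : t.Dg k H) : t.Dg k (G + H) := by
  induction k generalizing G H with
  | zero => have h1 : G = 0 := h; have h2 : H = 0 := h'; show G + H = 0; rw [h1, h2, add_zero]
  | succ k ih => intro v hv; rw [map_add]; exact ih (h v hv) (h' v hv)

lemma Tv.Dg_monomial (k : ℕ) : ∀ (s : σ →₀ ℕ) (a : ℚ), s.degree < k → t.Dg k (monomial s a) := by
  induction k with
  | zero => intro s a h; omega
  | succ k ih =>
    intro s a h v _
    rw [pderiv_monomial]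
    by_cases hv : s v = 0
    · rw [hv]; simp only [Nat.cast_zero, mul_zero, monomial_zero]; exact t.Dg_zero k
    · apply ih
      have h1 : (s - Finsupp.single v 1) + Finsupp.single v 1 = s := by
        ext i
        simp only [Finsupp.add_apply, Finsupp.tsub_apply, Finsupp.single_apply]
        split_ifs with hi
        · subst hi; omega
        · omega
      have h2 : (s - Finsupp.single v 1).degree + 1 = s.degree := by
        conv_rhs => rw [← h1]
        rw [map_add, Finsupp.degree_single]
      omega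

lemma Tv.Dg_exists (G : MvPolynomial σ ℚ) : ∃ k, t.Dg k G := by
  induction G using MvPolynomial.induction_on' with
  | monomial s a => exact ⟨s.degree + 1, t.Dg_monomial _ s a (Nat.lt_succ_self _)⟩
  | add p r hp hr =>
    obtain ⟨k, hk⟩ := hp
    obtain ⟨l, hl⟩ := hr
    exact ⟨max k l, t.Dg_add (t.Dg_mono (le_max_left _ _) hk) (t.Dg_mono (le_max_right _ _) hl)⟩

end

end Pool.Agent.R352.T
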